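import Pool.Agent.Q28.ZU.Conv

/-!
# De Rham-Betti classes, Hodge classes and Tate classes for all primes

Let `X` be a smooth projective variety over the field of algebraic numbers. The period conjecture for
`X` predicts that the de Rham-Betti classes on the powers of `X` (the rational classes `c` such that
`(2 π i)^j c` lies in algebraic de Rham cohomology) are classes of algebraic cycles. In particular
they should be Hodge classes, and their images in `l`-adic cohomology should be Tate classes, for
every prime `l`. A class is called a common class if it is a Hodge class, a de Rham-Betti class, and
its images in `l`-adic cohomology are Tate classes for all `l`. We prove unconditionally: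

* either all de Rham-Betti classes on all powers of `X` are common classes, or the common classes
  are asymptotically zero percent of the de Rham-Betti classes on `X^n`;
* hence, if the algebraic cycles modulo numerical equivalence are not asymptotically zero percent of
  the de Rham-Betti classes on the powers of `X` (the period conjecture says that they are one
  hundred percent), then for every `n`: homological and numerical equivalence agree on `X^n`, all
  de Rham-Betti classes on `X^n` are Hodge classes and Tate classes for all primes `l`, and each of
  the following conjectures implies that all de Rham-Betti classes on `X^n` are algebraic: the Hodge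
  conjecture for `X^n`; the Tate conjecture for `X^n` at one prime `l`;
* if moreover the algebraic cycles are not asymptotically zero percent of the Hodge classes, nor of
  the `l`-adic Tate classes for any `l`, then for every `n` the following are equivalent: all
  de Rham-Betti classes on `X^n` are algebraic; the Hodge conjecture for `X^n`; the Tate conjecture
  for `X^n` at `l`, for any `l`.

The theorem is proved for an arbitrary class of smooth projective varieties which is stable under
products, a Hodge theory `T` on it, a de Rham structure `D` on `T` over an algebraically closed
subfield `F` of `ℂ`, and an arbitrary family `L` of `l`-adic theories with comparison isomorphisms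
and Galois actions.
-/

open CategoryTheory AlgebraicGeometry

universe u w v

namespace Pool.Agent.Results.MP_77d3f5_ag.CommonClasses

open Pool.Agent.H914
open Pool.Agent.Y121.AHS (HodgeTheory IsHodge RatioToZero)
open Pool.Agent.Y133.Half (pw)
open Pool.Agent.Q28.ZC

variable {k : Type u} [Field k] {𝒱 : VarClass k} {ops : CycleOps 𝒱}

/-- **De Rham-Betti classes, Hodge classes and Tate classes on the powers of a variety.** `pw X n` is
the product of `n + 1` copies of `X`. -/
theorem result {T : HodgeTheory ops} {F : Subfield ℂ} (hF : ∀ x : ℂ, IsAlgebraic F x → x ∈ F)
    (D : DRStr T F) {ι : Type v} (L : ι → Ladic.{u, w} T.W) (X : 𝒱.Obj) [Nontrivial (T.W.H X)] :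
    -- the law for de Rham-Betti classes
    ((∀ n, AllCommon D L (IsDRB D) (pw X n)) ∨
      RatioToZero (fun n => dimP (IsCommon D L) (pw X n)) fun n => dimP (IsDRB D) (pw X n)) ∧
    -- the consequences for algebraic cycles
    ((∀ n, HomNum T.W (pw X n) ∧ AllCommon D L (IsDRB D) (pw X n) ∧
        (AllAlg (IsHodge T) (pw X n) → AllAlg (IsDRB D) (pw X n)) ∧
        ∀ i, AllAlg (IsTate (L i)) (pw X n) → AllAlg (IsDRB D) (pw X n)) ∨
      RatioToZero (fun n => cycRk ops (pw X n)) fun n => dimP (IsDRB D) (pw X n)) ∧
    -- the equivalence of the conjectures
    ((∀ n, (AllAlg (IsHodge T) (pw X n) ↔ AllAlg (IsDRB D) (pw X n)) ∧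
        ∀ i, (AllAlg (IsTate (L i)) (pw X n) ↔ AllAlg (IsDRB D) (pw X n))) ∨
      RatioToZero (fun n => cycRk ops (pw X n)) (fun n => dimP (IsDRB D) (pw X n)) ∨
      RatioToZero (fun n => cycRk ops (pw X n)) (fun n => dimP (IsHodge T) (pw X n)) ∨
      ∃ i, RatioToZero (fun n => cycRk ops (pw X n)) fun n => dimP (IsTate (L i)) (pw X n)) :=
  drb_final D hF L X

end Pool.Agent.Results.MP_77d3f5_ag.CommonClasses
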