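import Pool.Agent.Q57.ZI.Fin

/-!
# Positive density of the motivated or algebraic classes among the de Rham-Betti or Hodge classes

Let `X` be a smooth projective variety over the field of algebraic numbers. The period conjecture
predicts that all de Rham-Betti classes on all powers of `X` (the rational classes `c` of degree `2 j`
such that `(2 π i)^j c` is an algebraic de Rham class) are algebraic; in particular they should be the
same as the Hodge classes, but neither inclusion is known. We prove unconditionally:

* the quotients of the dimensions of the spaces of the de Rham-Betti classes and of the motivated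
  classes on `X^n`, and of the Hodge classes and of the motivated classes on `X^n`, tend to elements
  `N` and `N'` of `ℕ ∪ {∞}` (and the quotients for the algebraic cycles modulo numerical equivalence
  instead of the motivated classes tend to `N M` and `N' M` for an element `M ≥ 1` of `ℕ ∪ {∞}`);
* if `N` is finite (in particular if the algebraic cycles, or the motivated classes, do not have
  asymptotic proportion zero among the de Rham-Betti classes), then ALL de Rham-Betti classes on all
  powers of `X` are Hodge classes;
* if `N'` is finite (in particular if the algebraic cycles do not have asymptotic proportion zero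
  among the Hodge classes), then ALL Hodge classes on all powers of `X` are de Rham-Betti classes;
* if `N` and `N'` are finite, then they are equal (and the two kinds of classes are the same).

The theorem is proved for an arbitrary class of smooth projective varieties which is stable under
products, a Hodge theory `T` on it, and a de Rham structure `D` on `T` over an algebraically closed
subfield `F` of `ℂ`.
-/

open CategoryTheory AlgebraicGeometry

universe u

namespace Pool.Agent.Results.MP_77d3f5_ag.PositiveDensity

open Pool.Agent.H914
open Pool.Agent.Y121.AHS (HodgeTheory IsHodge)
open Pool.Agent.Y133.Half (pw)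
open Pool.Agent.Q50.MO (Motivated)
open Pool.Agent.Q57.DS

variable {k : Type u} [Field k] {𝒱 : VarClass k} {ops : CycleOps 𝒱}

/-- **Positive density implies equality of Hodge and de Rham-Betti classes.** `pw X n` is the product
of `n + 1` copies of `X`. -/
theorem result (T : HodgeTheory ops) {F : Subfield ℂ} [IsAlgClosed F] (D : DRStr T F)
    (X : 𝒱.Obj) [Nontrivial (T.W.H X)] :
    ∃ N N' M : ℕ∞, 1 ≤ N ∧ 1 ≤ N' ∧ 1 ≤ M ∧
      Index (fun n => dimP (IsDRB D) (pw X n)) (fun n => dimP (Motivated T.W) (pw X n)) N ∧
      Index (fun n => dimP (IsHodge T) (pw X n)) (fun n => dimP (Motivated T.W) (pw X n)) N' ∧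
      Index (fun n => dimP (IsDRB D) (pw X n)) (fun n => cycRk ops (pw X n)) (N * M) ∧
      Index (fun n => dimP (IsHodge T) (pw X n)) (fun n => cycRk ops (pw X n)) (N' * M) ∧
      (N ≠ ⊤ → N ≤ N' ∧ ∀ n j c, IsDRB D (pw X n) j c → IsHodge T (pw X n) j c) ∧
      (N' ≠ ⊤ → N' ≤ N ∧ ∀ n j c, IsHodge T (pw X n) j c → IsDRB D (pw X n) j c) :=
  Pool.Agent.Q57.ZI.finite_index T D X

end Pool.Agent.Results.MP_77d3f5_ag.PositiveDensity
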