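import Pool.Agent.Q60.RK.Quad

/-!
# The smallest torsor of periods is decided by quadratic relations between the periods

Let `M` be a de Rham-Betti object over the algebraically closed subfield `K` of the complex numbers
(for example the realisation of an André motive over the field of algebraic numbers), `P` its period
matrix (the comparison isomorphism in a `K`-basis of `M_dR` and a `ℚ`-basis of `M_B`), `C` a set of
de Rham-Betti classes on the tensor constructions of `M` (for example the motivated classes, or the
algebraic classes), `G` the group of the linear automorphisms of `M_B ⊗ ℂ` fixing them, `Ω_C` their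
torsor (for the motivated classes `Ω^And_M`), and `Ω_M` the smallest `K`-subtorsor containing `P`.

(1) If `G` is connected, every subobject over `K` of `M` has a complement, all classes over `K` on
`(M ⊗ M^∨) ⊗ (M ⊗ M^∨)^∨` are combinations of elements of `C`, and the Lie algebras over `K` of `G`
and of `M` have the same traces on the centre of `End_K(M)`, then `Ω_M = Ω^dRB_M = Ω_C`.

(2) Conversely, if `C` is the set of the motivated classes (or has the formal properties
`IsMotivicK` of this set) and `Ω_M = Ω_C`, then these four conditions hold.

(3) The second and the third condition hold, if `C` is as in (2) and every homogeneous quadratic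
relation over `K` between the entries of `P` holds on `Ω_C`.

(4) The condition on the traces follows from the second and the third condition, if the centre of the
Lie algebra of `G` consists of scalars, and `det P` is transcendental if `G` contains the homotheties.
-/

namespace Pool.Agent.Results.MP_77d3f5_ag.QuadraticRelationsDecide

open Pool.Agent.Q60.RB Pool.Agent.Q60.RK

theorem result {κ : Type} [Fintype κ] [DecidableEq κ] (K : Type) [Field K] [IsAlgClosed K]
    [Algebra K ℂ] (P : GL κ ℂ) (C : ∀ t : Con, Set (Ix κ t → ℚ)) (hC : AreDRB K P C) :
    (IsConnected (group C) → IsSemisimpleK K P → FullK P (toK K C) → TracesK P (toK K C) →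
      smallest K P = torsorDRB K P ∧ torsorDRB K P = torsorOf K P C) ∧
    (IsMotivicK (toK K C) → smallest K P = torsorOf K P C →
      IsConnected (group C) ∧ IsSemisimpleK K P ∧ FullK P (toK K C) ∧ TracesK P (toK K C)) ∧
    (IsMotivicK (toK K C) → QuadraticRelations K P (torsorOf K P C) →
      IsSemisimpleK K P ∧ FullK P (toK K C)) ∧
    (LieCentreScalar K C →
      (ContainsScalars (group C) → Transcendental K (P : Matrix κ κ ℂ).det) →
      IsSemisimpleK K P → FullK P (toK K C) → TracesK P (toK K C)) :=
  ⟨(main_smallest hC).1, (main_smallest hC).2.1, of_quad hC, (main_smallest hC).2.2⟩

end Pool.Agent.Results.MP_77d3f5_ag.QuadraticRelationsDecide
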