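import Pool.Agent.Q207.HM.Tta
import Pool.Agent.Y123.ST.Out
import Pool.Agent.Q207.HN.Ts

/-!
# The smallest subtorsor of sums of hypergeometric motives, for almost all tuples of fibres and all small number fields

The equation `θ^n f = z ∏_j (θ + α_j) f` with rational non-integral exponents `α_1, …, α_n`, `θ = z d/dz`, has maximally
unipotent monodromy at `z = 0`, and its solutions are periods of a family `H(α)` of motives over `ℚ(z)` of rank `n`. The
Frobenius method gives the basis `f_0, …, f_{n-1}` of solutions, and the periods of the fibres near `z = 0` are linear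
combinations of the numbers `(θ^i f_j)(z)` with constant coefficients (the matrices `Ω`).

Let `c = C₀ ⊕ ⨁_{i,j} Y_{i j}(1 / t_i) Ω_{i j}` be the period matrix of the direct sum of a fixed object `M_0` and of the
fibres at `1 / t_i` of arbitrary finite sums `⨁_j H(α_{i j})`, with repetitions, with equivalent and with dual members. For
a number field `K` the torsor of motivic isomorphisms of `H_dR` and `H_B` is a `K`-subtorsor which contains `c`, and the
period conjecture implies that it is, up to connected components, contained in all others. We show that for almost all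
tuples `t` and all `K` of small degree every `K`-subtorsor which contains `c` contains the fibre over `C₀` of the torsor
given by the quadratic functional relations and the determinants; for `M_0 = ℚ(-1)^{r₀}` this determines the smallest one.

The proof: outside of the exceptional set all relations of bounded degree over `ℚ` between the entries of `c` come from the
quadratic relations and the determinants (`Q207.HM.tuplesQ`; this uses the computation of the differential Galois groups of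
all such sums by Levelt's theorem, the theorem of Goursat, Kolchin and Ribet, and theorems on G-functions). These relations
are stable under a product of classical groups, embedded with repetitions and duals, which is generated by unipotent
elements and perfect, and for such groups a bounded number of relations over `ℚ` is enough to conclude for subtorsors of
all degrees over all number fields of bounded degree (descent by norms, normality, centralisers and commutators, as in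
`Pool.Agent.Y123.GN`).

Part (B) is about members over number fields: let `β_1, …, β_s` be pairwise different vectors of rational numbers between `0` and
`1`, of even length, symmetric under `b ↦ 1 - b` (symplectic motives, for example the mirror quintics with
`β = (1/5, 2/5, 3/5, 4/5)`). The members of `⨁_j H(β_j)` at `z = 1 / a_i` are considered for almost all `k`-tuples of algebraic
integers `a_i` of degree `≤ m`, each in its own number field, with a power of `T` for the exceptional tuples with conjugates at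
most `T`, any logarithms of the `a_i`, and all number fields `K` of degree `≤ D`. The relations of bounded degree come from
`Pool.Agent.Q207.HN.So`, the step from relations to subtorsors is `Q207.HM.stab_abs`.
-/

set_option autoImplicit false

open PowerSeries Filter Q207.HM

namespace Pool.Agent.Results.MP_77d3f5_ag.SubtorsorsOfHypergeometricSums

/-- the power series `k + ε` in the variable `ε` -/
noncomputable def shift (k : ℕ) : PowerSeries ℚ := C (k : ℚ) + X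

/-- `a_k(ε) = ∏_{l < k} ∏_j (l + ε + α_j) / (l + 1 + ε)^n`. The series `∑_k a_k(ε) z^(k + ε)` solves the equation
`(θ^n - z ∏_j (θ + α_j)) f = ε^n z^ε`, hence its coefficients `f_j` at `ε^j` with `j < n` are solutions of the
homogeneous equation. -/
noncomputable def frob {n : ℕ} (α : Fin n → ℚ) (k : ℕ) : PowerSeries ℚ :=
  ∏ l ∈ Finset.range k, ((∏ j, (shift l + C (α j))) * ((shift (l + 1))⁻¹) ^ n)

/-- The matrix with the entries `(θ^i f_j)(z)`, where `f_j(z)` is the coefficient of `ε^j` in the series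
`∑_k a_k(ε) z^(k + ε)`, `z^ε = ∑_l (log z)^l ε^l / l!`. -/
noncomputable def Y {n : ℕ} (α : Fin n → ℚ) (z : ℝ) : Matrix (Fin n) (Fin n) ℂ :=
  Matrix.of fun i j => ∑ l ∈ Finset.range ((j : ℕ) + 1), ((Real.log z ^ l / l.factorial : ℝ) : ℂ) *
    ∑' k : ℕ, ((coeff ((j : ℕ) - l) (shift k ^ (i : ℕ) * frob α k) : ℚ) : ℂ) * (z : ℂ) ^ k

/-- the value at `z` and at the entries of the matrices `g_j` of a polynomial with coefficients in `ℚ[z]` -/
noncomputable def value {r : ℕ} {n : Fin r → ℕ} (R : MvPolynomial (Σ j : Fin r, Fin (n j) × Fin (n j)) (Polynomial ℚ))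
    (z : ℂ) (g : ∀ j, Matrix (Fin (n j)) (Fin (n j)) ℂ) : ℂ :=
  MvPolynomial.eval₂ (Polynomial.eval₂RingHom (algebraMap ℚ ℂ) z) (fun p => g p.1 p.2.1 p.2.2) R

/-- The matrices `g_j` which satisfy at `z` all polynomial relations of degree `≤ 2` with coefficients in `ℚ[z]` which hold
for the entries of the matrix functions `Y_j` on the interval `(0, 1)`. -/
def quad {r : ℕ} {n : Fin r → ℕ} (α : ∀ j, Fin (n j) → ℚ) (z : ℂ) : Set (∀ j, Matrix (Fin (n j)) (Fin (n j)) ℂ) :=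
  {g | ∀ R : MvPolynomial (Σ j : Fin r, Fin (n j) × Fin (n j)) (Polynomial ℚ), R.totalDegree ≤ 2 →
    (∀ x : ℝ, 0 < x → x < 1 → value R x (fun j => Y (α j) x) = 0) → value R z g = 0}

/-- The algebraic set `T(z)` of the direct sum of the motives `H(α_j)`: the matrices `g_j` in `quad` (see there) which have
the determinants `(1 - z)^(- ∑ α_j)` (positive real numbers). -/
def torsor {r : ℕ} {n : Fin r → ℕ} (α : ∀ j, Fin (n j) → ℚ) (z : ℝ) : Set (∀ j, Matrix (Fin (n j)) (Fin (n j)) ℂ) :=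
  {g | g ∈ quad α z ∧ ∀ j, (g j).det = (((1 - z) ^ (-((∑ l, α j l : ℚ) : ℝ)) : ℝ) : ℂ)}

/-- The matrix `Y` for complex `z`, with a chosen logarithm `L` of `z`: the entries are `(θ^i f_j)(z)`, where `f_j(z)` is the
coefficient of `ε^j` in the series `∑_k a_k(ε) z^(k + ε)`, `z^ε = ∑_l L^l ε^l / l!`. The series converge for `|z| < 1`. -/
noncomputable def YC {n : ℕ} (α : Fin n → ℚ) (z L : ℂ) : Matrix (Fin n) (Fin n) ℂ :=
  Matrix.of fun i j => ∑ l ∈ Finset.range ((j : ℕ) + 1), L ^ l / (l.factorial : ℂ) *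
    ∑' k : ℕ, ((coeff ((j : ℕ) - l) (shift k ^ (i : ℕ) * frob α k) : ℚ) : ℂ) * z ^ k

/-- the algebraic integers of degree at most `m` all of whose conjugates have absolute value at most `T` -/
def integers (m T : ℕ) : Set ℂ :=
  {a | IsIntegral ℤ a ∧ (minpoly ℚ a).natDegree ≤ m ∧ ∀ z : ℂ, Polynomial.aeval z (minpoly ℚ a) = 0 → ‖z‖ ≤ T}

/-- `T` is (the set of complex points of) a `K`-subtorsor of `GL_B = Iso (M_dR, M_B)`: it is closed under `x y⁻¹ z`, and
it is defined in `GL_B` by polynomials with coefficients in `K`. -/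
def IsSubtorsor (K : Subfield ℂ) {B : Type} [Fintype B] [DecidableEq B] (T : Set (Matrix B B ℂ)) : Prop :=
  (∀ x ∈ T, ∀ y ∈ T, ∀ z ∈ T, x * y⁻¹ * z ∈ T) ∧ ∃ I : Set (MvPolynomial (B × B) K), ∀ x : Matrix B B ℂ, x ∈ T ↔
    IsUnit x ∧ ∀ p ∈ I, MvPolynomial.eval (fun b => x b.1 b.2) (MvPolynomial.map (algebraMap K ℂ) p) = 0

section

variable {r₀ k : ℕ} {r : Fin k → ℕ} {n : ∀ i, Fin (r i) → ℕ}

/-- the indices of the rows and columns of the block matrices -/
abbrev Idx (r₀ : ℕ) (n : ∀ i, Fin (r i) → ℕ) : Type := Fin r₀ ⊕ Σ p : (Σ i : Fin k, Fin (r i)), Fin (n p.1 p.2)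

/-- the block matrix `x ⊕ ⨁_{i,j} X_{i j}` -/
noncomputable def total (x : Matrix (Fin r₀) (Fin r₀) ℂ) (X : ∀ i j, Matrix (Fin (n i j)) (Fin (n i j)) ℂ) :
    Matrix (Idx r₀ n) (Idx r₀ n) ℂ :=
  Matrix.fromBlocks x 0 0 (Matrix.blockDiagonal' fun p : (Σ i : Fin k, Fin (r i)) => X p.1 p.2)

/-- The conclusion for one tuple `t`. For all number fields `K` of degree at most `D` and all `K`-subtorsors `T` which
contain the period matrix `c = C₀ ⊕ ⨁ Y_{i j}(1 / t_i) Ω_{i j}`: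

1. `T` contains `C₀ ⊕ ⨁ g_{i j} Ω_{i j}` for all `(g_{i j})_j ∈ T_i(1 / t_i)`;
2. if `C₀ = 2πi ⊕ … ⊕ 2πi` then `T` is equal to every `K`-subtorsor `T₁ ⊇ T` which consists of matrices `z ⊕ … ⊕ z ⊕ X` and
  whose points with `z = 2πi` are of the form `g_{i j} Ω_{i j}` with `(g_{i j})_j ∈ T_i(1 / t_i)`. -/
def Good (D : ℕ) (C₀ : Matrix (Fin r₀) (Fin r₀) ℂ) (α : ∀ i j, Fin (n i j) → ℚ)
    (Ω : ∀ i j, Matrix (Fin (n i j)) (Fin (n i j)) ℂ) (t : Fin k → ℕ) : Prop :=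
  ∀ K : Subfield ℂ, FiniteDimensional ℚ K → Module.finrank ℚ K ≤ D →
  ∀ T : Set (Matrix (Idx r₀ n) (Idx r₀ n) ℂ), IsSubtorsor K T →
    total C₀ (fun i j => Y (α i j) (1 / (t i : ℝ)) * Ω i j) ∈ T →
    (∀ g : ∀ i j, Matrix (Fin (n i j)) (Fin (n i j)) ℂ, (∀ i, g i ∈ torsor (α i) (1 / (t i : ℝ))) →
      total C₀ (fun i j => g i j * Ω i j) ∈ T) ∧
    (0 < r₀ → C₀ = (2 * Real.pi * Complex.I : ℂ) • 1 → ∀ T₁ : Set (Matrix (Idx r₀ n) (Idx r₀ n) ℂ), IsSubtorsor K T₁ →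
      T ⊆ T₁ → (∀ y ∈ T₁, ∃ (z : ℂ) (X : ∀ i j, Matrix (Fin (n i j)) (Fin (n i j)) ℂ), y = total (z • 1) X ∧
        (z = 2 * Real.pi * Complex.I → ∃ g : ∀ i j, Matrix (Fin (n i j)) (Fin (n i j)) ℂ,
          (∀ i, g i ∈ torsor (α i) (1 / (t i : ℝ))) ∧ X = fun i j => g i j * Ω i j)) → T = T₁)

end

section

variable {r₀ k s : ℕ} {n : Fin s → ℕ}

/-- The conclusion for one tuple `a` of algebraic integers: the series `Y_j(1 / a_i)` converge, and for any logarithms `ℓ_i` of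
the `a_i`, all number fields `K` of degree at most `D` and all `K`-subtorsors `T` which contain the period matrix
`c = C₀ ⊕ ⨁ Y_j(1 / a_i) Ω_{i j}`:

1. `T` contains `C₀ ⊕ ⨁ g_{i j} Ω_{i j}` for all `(g_{i j})_j` which satisfy the quadratic relations at `1 / a_i`;
2. if `C₀ = 2πi ⊕ … ⊕ 2πi` then `T` is equal to every `K`-subtorsor `T₁ ⊇ T` which consists of matrices `z ⊕ … ⊕ z ⊕ X` and
  whose points with `z = 2πi` are of the form `g_{i j} Ω_{i j}` with `(g_{i j})_j` as in 1. -/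
def GoodC (D : ℕ) (C₀ : Matrix (Fin r₀) (Fin r₀) ℂ) (β : ∀ j, Fin (n j) → ℚ)
    (Ω : ∀ (_ : Fin k) (j : Fin s), Matrix (Fin (n j)) (Fin (n j)) ℂ) (a : Fin k → ℂ) : Prop :=
  (∀ i, 1 < ‖a i‖) ∧ ∀ ℓ : Fin k → ℂ, (∀ i, Complex.exp (ℓ i) = a i) →
  ∀ K : Subfield ℂ, FiniteDimensional ℚ K → Module.finrank ℚ K ≤ D →
  ∀ T : Set (Matrix (Idx r₀ fun _ : Fin k => n) (Idx r₀ fun _ : Fin k => n) ℂ), IsSubtorsor K T →
    total C₀ (fun i j => YC (β j) (1 / a i) (-ℓ i) * Ω i j) ∈ T →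
    (∀ g : ∀ (_ : Fin k) (j : Fin s), Matrix (Fin (n j)) (Fin (n j)) ℂ, (∀ i, g i ∈ quad β (1 / a i)) →
      total C₀ (fun i j => g i j * Ω i j) ∈ T) ∧
    (0 < r₀ → C₀ = (2 * Real.pi * Complex.I : ℂ) • 1 →
      ∀ T₁ : Set (Matrix (Idx r₀ fun _ : Fin k => n) (Idx r₀ fun _ : Fin k => n) ℂ), IsSubtorsor K T₁ →
      T ⊆ T₁ → (∀ y ∈ T₁, ∃ (z : ℂ) (X : ∀ (_ : Fin k) (j : Fin s), Matrix (Fin (n j)) (Fin (n j)) ℂ), y = total (z • 1) X ∧
        (z = 2 * Real.pi * Complex.I → ∃ g : ∀ (_ : Fin k) (j : Fin s), Matrix (Fin (n j)) (Fin (n j)) ℂ,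
          (∀ i, g i ∈ quad β (1 / a i)) ∧ X = fun i j => g i j * Ω i j)) → T = T₁)

end

theorem shift_eq (k : ℕ) : shift k = Pool.Agent.Y119.HY.kx k := rfl

theorem frob_eq {n : ℕ} (α : Fin n → ℚ) (k : ℕ) : frob α k = Pool.Agent.Y119.HY.aq n (QA α) k := by
  unfold frob Pool.Agent.Y119.HY.aq
  refine Finset.prod_congr rfl fun l _ => ?_
  have h1 : (∏ j, (shift l + C (α j))) = Polynomial.aeval (Pool.Agent.Y119.HY.kx l) (QA α) := by
    unfold QA
    rw [map_prod]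
    refine Finset.prod_congr rfl fun j _ => ?_
    rw [map_add, Polynomial.aeval_X, Polynomial.aeval_C]
    rfl
  rw [h1]
  rfl

theorem Y_eq {n : ℕ} (α : Fin n → ℚ) {x : ℝ} (hx : 0 ≤ x) : Y α x = Yx n (QA α) x := by
  ext i j
  unfold Y Yx Pool.Agent.Y119.HY.Yf
  rw [Matrix.of_apply, Matrix.mul_apply]
  have hE : ∀ c : Fin n, Pool.Agent.Y119.HY.E (Pool.Agent.Y119.HY.cm (Pool.Agent.Y119.HY.Am n))
      (Complex.log (x : ℂ)) c j = ∑ l ∈ Finset.range n,
        if (j : ℕ) = c + l then ((Real.log x ^ l / l.factorial : ℝ) : ℂ) else 0 := by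
    intro c
    unfold Pool.Agent.Y119.HY.E
    rw [Matrix.sum_apply]
    refine Finset.sum_congr rfl fun l _ => ?_
    rw [Matrix.smul_apply, ← Pool.Agent.Y119.HY.cm_pow, Pool.Agent.Y119.HY.cm_apply, Pool.Agent.Y119.HY.Am_pow, smul_eq_mul,
      ← Complex.ofReal_log hx]
    split_ifs
    · push_cast
      ring
    · simp
  simp only [hE, Finset.mul_sum]
  rw [Finset.sum_comm]
  have hsub : Finset.range ((j : ℕ) + 1) ⊆ Finset.range n := by
    intro l hl
    rw [Finset.mem_range] at hl ⊢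
    have := j.2
    omega
  refine Finset.sum_subset_zero_on_sdiff hsub (fun l hl => ?_) fun l hl => ?_
  · rw [Finset.mem_sdiff, Finset.mem_range, Finset.mem_range] at hl
    refine Finset.sum_eq_zero fun c _ => ?_
    rw [if_neg (by omega), mul_zero]
  · rw [Finset.mem_range] at hl
    have hj := j.2
    rw [Finset.sum_eq_single (⟨(j : ℕ) - l, by omega⟩ : Fin n)]
    · rw [if_pos (by simp only; omega), mul_comm]
      congr 1
      unfold Pool.Agent.Y119.HY.Hf Pool.Agent.Y119.HY.ps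
      rw [Matrix.of_apply]
      refine tsum_congr fun k => ?_
      show _ = ((Pool.Agent.Y119.HY.hq n (QA α) k i ((j : ℕ) - l) : ℚ) : ℂ) * (x : ℂ) ^ k
      rw [frob_eq, shift_eq]
      rfl
    · intro c _ hc
      rw [if_neg, mul_zero]
      intro h
      apply hc
      apply Fin.ext
      simp only
      omega
    · intro h
      exact absurd (Finset.mem_univ _) h

theorem value_eq {r : ℕ} {n : Fin r → ℕ} (R : MvPolynomial (Σ j : Fin r, Fin (n j) × Fin (n j)) (Polynomial ℚ))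
    (z : ℂ) (g : ∀ j, Matrix (Fin (n j)) (Fin (n j)) ℂ) : value R z g = valQ R z g := by
  unfold value valQ
  rfl

theorem pow_eq {t : ℕ} (ht : 2 ≤ t) (s : ℚ) :
    (((1 - 1 / (t : ℝ)) ^ (-(s : ℝ)) : ℝ) : ℂ) = Complex.exp (-(s : ℂ) * Complex.log (1 - 1 / (t : ℂ))) := by
  obtain ⟨h1, h2⟩ := tpos ht
  have h3 : 0 < 1 - 1 / (t : ℝ) := by linarith
  have h4 : (1 - 1 / (t : ℂ)) = (((1 - 1 / (t : ℝ) : ℝ)) : ℂ) := by push_cast; rfl
  rw [Real.rpow_def_of_pos h3, h4, ← Complex.ofReal_log h3.le, Complex.ofReal_exp]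
  congr 1
  push_cast
  ring

theorem torsor_eq {r : ℕ} {n : Fin r → ℕ} (α : ∀ j, Fin (n j) → ℚ) (t : ℕ) {g : ∀ j, Matrix (Fin (n j)) (Fin (n j)) ℂ}
    (hg : g ∈ torsor α (1 / (t : ℝ))) : QuadT α t g := by
  intro R hR h
  rw [← value_eq]
  refine hg.1 R hR fun x hx hx1 => ?_
  rw [value_eq]
  have h1 : (fun j => Y (α j) x) = fun j => Yx (n j) (QA (α j)) x := by
    funext j
    exact Y_eq _ hx.le
  rw [h1]
  exact h x hx hx1

theorem YC_eq {n : ℕ} (α : Fin n → ℚ) (z L : ℂ) : YC α z L = Q207.HN.YL α z L := by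
  ext b a
  rw [Q207.HN.YL_apply]
  unfold YC
  rw [Matrix.of_apply]
  refine Finset.sum_congr rfl fun l _ => ?_
  congr 1
  refine tsum_congr fun j => ?_
  rw [frob_eq]
  rfl

theorem quad_eq {r : ℕ} {n : Fin r → ℕ} (α : ∀ j, Fin (n j) → ℚ) (z : ℂ) (g : ∀ j, Matrix (Fin (n j)) (Fin (n j)) ℂ) :
    g ∈ quad α z ↔ Q207.HN.Qd α z g := by
  have h1 : ∀ (R : MvPolynomial (Σ j : Fin r, Fin (n j) × Fin (n j)) (Polynomial ℚ)) (x : ℝ), 0 < x →
      value R x (fun j => Y (α j) x) = valQ R (x : ℂ) (fun j => Yx (n j) (QA (α j)) x) := by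
    intro R x hx
    have h2 : (fun j => Y (α j) x) = fun j => Yx (n j) (QA (α j)) x := by
      funext j
      exact Y_eq _ hx.le
    rw [h2]
    rfl
  constructor
  · intro h R hR h0
    exact h R hR fun x hx hx1 => by rw [h1 R x hx]; exact h0 x hx hx1
  · intro h R hR h0
    exact h R hR fun x hx hx1 => by rw [← h1 R x hx]; exact h0 x hx hx1

theorem alg_of {K : Subfield ℂ} (hKf : FiniteDimensional ℚ K) : ∀ x ∈ K, IsAlgebraic ℚ x := by
  intro x hx
  have : NumberField K := { to_charZero := inferInstance, to_finiteDimensional := hKf }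
  have h6 : IsAlgebraic ℚ (⟨x, hx⟩ : K) := Algebra.IsAlgebraic.isAlgebraic _
  exact h6.algebraMap (A := ℂ)

section

variable {r₀ k : ℕ} {r : Fin k → ℕ} {n : ∀ i, Fin (r i) → ℕ}

theorem good_of {D : ℕ} {C₀ : Matrix (Fin r₀) (Fin r₀) ℂ} {α : ∀ i j, Fin (n i j) → ℚ}
    {Ω : ∀ i j, Matrix (Fin (n i j)) (Fin (n i j)) ℂ} {t : Fin k → ℕ} (ht : ∀ i, 2 ≤ t i) (hG : GoodT D C₀ α Ω t) :
    Good D C₀ α Ω t := by
  intro K hKf hKD T hT hcT
  have hY : (fun i j => Y (α i j) (1 / (t i : ℝ)) * Ω i j) =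
      fun i j => Yx (n i j) (QA (α i j)) (1 / (t i : ℝ)) * Ω i j := by
    funext i j
    rw [Y_eq _ (tpos (ht i)).1.le]
  have hT' := Pool.Agent.Y123.ST.subT_iff.1 hT
  have hmain : ∀ g : ∀ i j, Matrix (Fin (n i j)) (Fin (n i j)) ℂ, (∀ i, g i ∈ torsor (α i) (1 / (t i : ℝ))) →
      total C₀ (fun i j => g i j * Ω i j) ∈ T := by
    intro g hg
    refine hG K hKf hKD T hT' ?_ g fun i => ⟨torsor_eq (α i) (t i) (hg i), fun j => ?_⟩
    · rw [hY] at hcT
      exact hcT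
    · rw [(hg i).2 j, pow_eq (ht i)]
  refine ⟨hmain, fun hr hC T₁ hT₁ hTT hz => ?_⟩
  subst hC
  refine absT hr (alg_of hKf) hT' (Pool.Agent.Y123.ST.subT_iff.1 hT₁) hTT hcT (fun y hy => ?_) fun X hX => ?_
  · obtain ⟨z, X, h1, -⟩ := hz y hy
    exact ⟨z, _, h1⟩
  · obtain ⟨z, X', h1, h2⟩ := hz _ hX
    have hX1 : X = fun p : (Σ i : Fin k, Fin (r i)) => X' p.1 p.2 := Matrix.blockDiagonal'_injective (Matrix.fromBlocks_inj.1 h1).2.2.2
    have hz1 : z = 2 * Real.pi * Complex.I := by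
      have h3 := congrFun (congrFun (Matrix.fromBlocks_inj.1 h1).1 ⟨0, hr⟩) ⟨0, hr⟩
      rw [Matrix.smul_apply, Matrix.smul_apply, Matrix.one_apply_eq, smul_eq_mul, smul_eq_mul, mul_one, mul_one] at h3
      exact h3.symm
    obtain ⟨g, hg, hXg⟩ := h2 hz1
    have h4 := hmain g hg
    rw [hX1, hXg]
    exact h4

end

section

variable {r₀ k s : ℕ} {n : Fin s → ℕ}

theorem goodC_of {D : ℕ} {C₀ : Matrix (Fin r₀) (Fin r₀) ℂ} {β : ∀ j, Fin (n j) → ℚ}
    {Ω : ∀ (_ : Fin k) (j : Fin s), Matrix (Fin (n j)) (Fin (n j)) ℂ} {a : Fin k → ℂ} (hG : Q207.HN.GdS D β C₀ Ω a) :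
    GoodC D C₀ β Ω a := by
  refine ⟨hG.1, fun ℓ hℓ K hKf hKD T hT hcT => ?_⟩
  have hY : (fun (i : Fin k) (j : Fin s) => YC (β j) (1 / a i) (-ℓ i) * Ω i j) =
      fun i j => Q207.HN.YL (β j) (1 / a i) (-ℓ i) * Ω i j := by
    funext i j
    rw [YC_eq]
  have hT' := Pool.Agent.Y123.ST.subT_iff.1 hT
  have hmain : ∀ g : ∀ (_ : Fin k) (j : Fin s), Matrix (Fin (n j)) (Fin (n j)) ℂ, (∀ i, g i ∈ quad β (1 / a i)) →
      total C₀ (fun i j => g i j * Ω i j) ∈ T := by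
    intro g hg
    refine hG.2 ℓ hℓ K hKf hKD T hT' ?_ g fun i => (quad_eq β _ _).1 (hg i)
    rw [hY] at hcT
    exact hcT
  refine ⟨hmain, fun hr hC T₁ hT₁ hTT hz => ?_⟩
  subst hC
  refine absT hr (alg_of hKf) hT' (Pool.Agent.Y123.ST.subT_iff.1 hT₁) hTT hcT (fun y hy => ?_) fun X hX => ?_
  · obtain ⟨z, X, h1, -⟩ := hz y hy
    exact ⟨z, _, h1⟩
  · obtain ⟨z, X', h1, h2⟩ := hz _ hX
    have hX1 : X = fun p : (Σ _ : Fin k, Fin s) => X' p.1 p.2 := Matrix.blockDiagonal'_injective (Matrix.fromBlocks_inj.1 h1).2.2.2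
    have hz1 : z = 2 * Real.pi * Complex.I := by
      have h3 := congrFun (congrFun (Matrix.fromBlocks_inj.1 h1).1 ⟨0, hr⟩) ⟨0, hr⟩
      rw [Matrix.smul_apply, Matrix.smul_apply, Matrix.one_apply_eq, smul_eq_mul, smul_eq_mul, mul_one, mul_one] at h3
      exact h3.symm
    obtain ⟨g, hg, hXg⟩ := h2 hz1
    have h4 := hmain g hg
    rw [hX1, hXg]
    exact h4

end

/-- **The theorem for integral points.** Let `H_{i j}`, `1 ≤ i ≤ k`, `1 ≤ j ≤ r_i`, be the hypergeometric motives with the exponents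
`α_{i j l}`, rational and not integral, of ranks `≥ 2`, and suppose that the exponents of each of them are symmetric modulo
`ℤ` or have a sum which is not in `ℤ / 2`; repetitions, equivalent and dual motives are allowed. Then the period matrices
at `1 / t` lie in `T_i(1 / t)`, and the following holds.

1. For all `D` there are `c > 0` and `C` such that for all `C₀`, all `Ω_{i j}` and all boxes `∏_i (x_i, x_i + N]` with
  `x_i ≥ 1` all but `C N^(k-1) ∑_i (1 + N / (x_i + N)^c)` integral points `t` of the box are good: the conclusion holds for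
  all number fields of degree at most `D` at once.
2. There are functions `D(N) → ∞` and `δ(N) → 0` such that for all `C₀`, `Ω_{i j}` and `N` all but `δ(N) N^k` tuples of
  integers `2 ≤ t_i ≤ N` are good for all number fields of degree at most `D(N)`. -/
theorem integral (k r₀ : ℕ) (r : Fin k → ℕ) (n : ∀ i, Fin (r i) → ℕ) (α : ∀ i j, Fin (n i j) → ℚ) (hn : ∀ i j, 2 ≤ n i j)
    (hα : ∀ i j l, ∀ a : ℤ, α i j l ≠ a)
    (hs : ∀ i j, (∃ σ : Equiv.Perm (Fin (n i j)), ∀ l, ∃ a : ℤ, α i j (σ l) + α i j l = a) ∨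
      ∀ a : ℤ, 2 * ∑ l, α i j l ≠ a) :
    (∀ i, ∀ t : ℕ, 2 ≤ t → (fun j => Y (α i j) (1 / (t : ℝ))) ∈ torsor (α i) (1 / (t : ℝ))) ∧
    (∀ D : ℕ, ∃ c C : ℝ, 0 < c ∧ 0 ≤ C ∧ ∀ (C₀ : Matrix (Fin r₀) (Fin r₀) ℂ) (Ω : ∀ i j, Matrix (Fin (n i j)) (Fin (n i j)) ℂ)
      (x : Fin k → ℕ) (N : ℕ), (∀ i, 1 ≤ x i) → 1 ≤ N →
      (({t : Fin k → ℕ | (∀ i, x i < t i ∧ t i ≤ x i + N) ∧ ¬ Good D C₀ α Ω t}.ncard : ℕ) : ℝ) ≤
        C * (N : ℝ) ^ (k - 1) * ∑ i, (1 + N / ((x i : ℝ) + N) ^ c)) ∧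
    (∃ (D : ℕ → ℕ) (δ : ℕ → ℝ), Tendsto D atTop atTop ∧ Tendsto δ atTop (nhds 0) ∧
      ∀ (C₀ : Matrix (Fin r₀) (Fin r₀) ℂ) (Ω : ∀ i j, Matrix (Fin (n i j)) (Fin (n i j)) ℂ) (N : ℕ), 2 ≤ N →
      (({t : Fin k → ℕ | (∀ i, 2 ≤ t i ∧ t i ≤ N) ∧ ¬ Good (D N) C₀ α Ω t}.ncard : ℕ) : ℝ) ≤ δ N * (N : ℝ) ^ k) := by
  classical
  have hmain : ∀ D : ℕ, ∃ c C : ℝ, 0 < c ∧ 0 ≤ C ∧ ∀ (C₀ : Matrix (Fin r₀) (Fin r₀) ℂ)
      (Ω : ∀ i j, Matrix (Fin (n i j)) (Fin (n i j)) ℂ) (x : Fin k → ℕ) (N : ℕ), (∀ i, 1 ≤ x i) → 1 ≤ N →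
      (({t : Fin k → ℕ | (∀ i, x i < t i ∧ t i ≤ x i + N) ∧ ¬ Good D C₀ α Ω t}.ncard : ℕ) : ℝ) ≤
        C * (N : ℝ) ^ (k - 1) * ∑ i, (1 + N / ((x i : ℝ) + N) ^ c) := by
    intro D
    obtain ⟨c, C, hc, hC, hmain⟩ := tuplesT k D r₀ r n α hα hn fun i j => by
      rcases hs i j with ⟨σ, h1⟩ | h1
      · refine Or.inl (perm_cls σ fun l => ?_)
        obtain ⟨a, ha⟩ := h1 l
        exact ⟨-a, by push_cast; linarith⟩
      · exact Or.inr h1
    refine ⟨c, C, hc, hC, ?_⟩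
    intro C₀ Ω x N hx hN
    set S := {t : Fin k → ℕ | (∀ i, x i < t i ∧ t i ≤ x i + N) ∧ ¬ Good D C₀ α Ω t} with hS
    have hfin : S.Finite := by
      refine (Set.finite_Iic (fun i : Fin k => x i + N)).subset ?_
      intro t ht i
      exact (ht.1 i).2
    rw [Set.ncard_eq_toFinset_card S hfin]
    refine hmain C₀ Ω x N hx hN _ fun t ht => ?_
    have ht' : t ∈ S := hfin.mem_toFinset.1 ht
    have ht2 : ∀ i, 2 ≤ t i := fun i => by
      have := (ht'.1 i).1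
      have := hx i
      omega
    exact ⟨ht'.1, fun h => ht'.2 (good_of ht2 h)⟩
  refine ⟨fun i t ht => ⟨fun R _ h => ?_, fun j => ?_⟩, hmain, ?_⟩
  · obtain ⟨h1, h2⟩ := tpos ht
    exact h _ h1 h2
  · obtain ⟨h1, h2⟩ := tpos ht
    show (Y (α i j) (1 / (t : ℝ))).det = _
    rw [Y_eq _ h1.le, det_Yt (QG_QA (hn i j) fun l a h0 => hα i j l a h0.symm) ht,
      QA_coeff (by have := hn i j; omega) (α i j), pow_eq ht]
  choose c C hc hC hcount using hmain
  obtain ⟨D, hD, hδ⟩ := Pool.Agent.Y123.GN.diag_seq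
    (fun D N => C D * k * (1 / (N : ℝ) + 1 / (N : ℝ) ^ (c D))) (by
      intro D
      have h1 : Tendsto (fun N : ℕ => (1 : ℝ) / (N : ℝ)) atTop (nhds 0) := tendsto_one_div_atTop_nhds_zero_nat
      have h2 : Tendsto (fun N : ℕ => (1 : ℝ) / (N : ℝ) ^ (c D)) atTop (nhds 0) := by
        have h3 := (tendsto_rpow_atTop (hc D)).comp tendsto_natCast_atTop_atTop
        have h4 := h3.inv_tendsto_atTop
        refine h4.congr fun N => ?_
        rw [one_div]
        rfl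
      have h5 := (h1.add h2).const_mul (C D * k)
      rw [add_zero, mul_zero] at h5
      exact h5)
  refine ⟨D, _, hD, hδ, ?_⟩
  intro C₀ Ω N hN
  obtain ⟨N', rfl⟩ : ∃ N', N = 1 + N' := ⟨N - 1, by omega⟩
  have h1 := hcount (D (1 + N')) C₀ Ω (fun _ => 1) N' (fun _ => le_rfl) (by omega)
  have h2 : {t : Fin k → ℕ | (∀ i, 1 < t i ∧ t i ≤ 1 + N') ∧ ¬ Good (D (1 + N')) C₀ α Ω t} =
      {t : Fin k → ℕ | (∀ i, 2 ≤ t i ∧ t i ≤ 1 + N') ∧ ¬ Good (D (1 + N')) C₀ α Ω t} := by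
    ext t
    simp only [Set.mem_ofPred_eq, Nat.lt_iff_add_one_le]
  rw [h2] at h1
  refine h1.trans ?_
  have hN0 : (0 : ℝ) < ((1 + N' : ℕ) : ℝ) := by positivity
  have hN1 : (N' : ℝ) ≤ ((1 + N' : ℕ) : ℝ) := by push_cast; linarith
  rw [Finset.sum_const, Finset.card_univ, Fintype.card_fin, nsmul_eq_mul]
  have h6 : ((1 : ℕ) : ℝ) + (N' : ℝ) = ((1 + N' : ℕ) : ℝ) := by push_cast; ring
  rw [h6]
  rcases Nat.eq_zero_or_pos k with hk | hk
  · subst hk
    simp
  · obtain ⟨q, rfl⟩ : ∃ q, k = q + 1 := ⟨k - 1, by omega⟩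
    rw [Nat.add_sub_cancel, pow_succ (((1 + N' : ℕ) : ℝ))]
    have h7 : (0 : ℝ) < ((1 + N' : ℕ) : ℝ) ^ (c (D (1 + N'))) := Real.rpow_pos_of_pos hN0 _
    have h4 : (1 : ℝ) + N' / ((1 + N' : ℕ) : ℝ) ^ (c (D (1 + N'))) ≤
        ((1 + N' : ℕ) : ℝ) * (1 / ((1 + N' : ℕ) : ℝ) + 1 / ((1 + N' : ℕ) : ℝ) ^ (c (D (1 + N')))) := by
      rw [mul_add, mul_one_div_cancel hN0.ne', mul_one_div]
      gcongr
    have h5 : (N' : ℝ) ^ q ≤ ((1 + N' : ℕ) : ℝ) ^ q := pow_le_pow_left₀ (by positivity) hN1 q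
    have h8 := hC (D (1 + N'))
    calc C (D (1 + N')) * (N' : ℝ) ^ q * (((q + 1 : ℕ) : ℝ) * (1 + N' / ((1 + N' : ℕ) : ℝ) ^ (c (D (1 + N'))))) ≤
          C (D (1 + N')) * ((1 + N' : ℕ) : ℝ) ^ q * (((q + 1 : ℕ) : ℝ) *
            (((1 + N' : ℕ) : ℝ) * (1 / ((1 + N' : ℕ) : ℝ) + 1 / ((1 + N' : ℕ) : ℝ) ^ (c (D (1 + N')))))) := by
          gcongr
      _ = _ := by ring

/-- **The theorem.** (A) Let `H_{i j}`, `1 ≤ i ≤ k`, `1 ≤ j ≤ r_i`, be the hypergeometric motives with the exponents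
`α_{i j l}`, rational and not integral, of ranks `≥ 2`, and suppose that the exponents of each of them are symmetric modulo
`ℤ` or have a sum which is not in `ℤ / 2`; repetitions, equivalent and dual motives are allowed. Then the period matrices
at `1 / t` lie in `T_i(1 / t)`, and the following holds.

1. For all `D` there are `c > 0` and `C` such that for all `C₀`, all `Ω_{i j}` and all boxes `∏_i (x_i, x_i + N]` with
  `x_i ≥ 1` all but `C N^(k-1) ∑_i (1 + N / (x_i + N)^c)` integral points `t` of the box are good: the conclusion holds for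
  all number fields of degree at most `D` at once.
2. There are functions `D(N) → ∞` and `δ(N) → 0` such that for all `C₀`, `Ω_{i j}` and `N` all but `δ(N) N^k` tuples of
  integers `2 ≤ t_i ≤ N` are good for all number fields of degree at most `D(N)`.

(B) Let `β_1, …, β_s` be pairwise different (up to the order of the entries) vectors of rational numbers between `0` and `1`, of
even lengths `n_j ≥ 2`, symmetric under `b ↦ 1 - b`. Then for `|a| > 1` and any `ℓ` the matrices `Y_j(1 / a)` satisfy the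
quadratic relations at `1 / a`, and for all `m ≥ 1` and `D` there are `c > 0`, `C` and a finite set `B` such that for all `C₀`,
all `Ω_{i j}` and all `T ≥ 1` all but at most `C T^(-c) |I|^k` of the `k`-tuples `a` in `I` without coordinates in `B` are good,
for all number fields of degree at most `D` at once; here `I` is the set of the algebraic integers of degree `≤ m` with all
conjugates at most `T`. -/
theorem result (k r₀ : ℕ) :
    (∀ (r : Fin k → ℕ) (n : ∀ i, Fin (r i) → ℕ) (α : ∀ i j, Fin (n i j) → ℚ), (∀ i j, 2 ≤ n i j) →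
      (∀ i j l, ∀ a : ℤ, α i j l ≠ a) →
      (∀ i j, (∃ σ : Equiv.Perm (Fin (n i j)), ∀ l, ∃ a : ℤ, α i j (σ l) + α i j l = a) ∨
        ∀ a : ℤ, 2 * ∑ l, α i j l ≠ a) →
      (∀ i, ∀ t : ℕ, 2 ≤ t → (fun j => Y (α i j) (1 / (t : ℝ))) ∈ torsor (α i) (1 / (t : ℝ))) ∧
      (∀ D : ℕ, ∃ c C : ℝ, 0 < c ∧ 0 ≤ C ∧ ∀ (C₀ : Matrix (Fin r₀) (Fin r₀) ℂ) (Ω : ∀ i j, Matrix (Fin (n i j)) (Fin (n i j)) ℂ)
        (x : Fin k → ℕ) (N : ℕ), (∀ i, 1 ≤ x i) → 1 ≤ N →
        (({t : Fin k → ℕ | (∀ i, x i < t i ∧ t i ≤ x i + N) ∧ ¬ Good D C₀ α Ω t}.ncard : ℕ) : ℝ) ≤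
          C * (N : ℝ) ^ (k - 1) * ∑ i, (1 + N / ((x i : ℝ) + N) ^ c)) ∧
      (∃ (D : ℕ → ℕ) (δ : ℕ → ℝ), Tendsto D atTop atTop ∧ Tendsto δ atTop (nhds 0) ∧
        ∀ (C₀ : Matrix (Fin r₀) (Fin r₀) ℂ) (Ω : ∀ i j, Matrix (Fin (n i j)) (Fin (n i j)) ℂ) (N : ℕ), 2 ≤ N →
        (({t : Fin k → ℕ | (∀ i, 2 ≤ t i ∧ t i ≤ N) ∧ ¬ Good (D N) C₀ α Ω t}.ncard : ℕ) : ℝ) ≤ δ N * (N : ℝ) ^ k)) ∧
    ∀ (s m : ℕ) (n : Fin s → ℕ) (β : ∀ j, Fin (n j) → ℚ), 1 ≤ m → (∀ j, 2 ≤ n j ∧ Even (n j)) →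
      (∀ j l, 0 < β j l ∧ β j l < 1) → (∀ j, ∃ σ : Equiv.Perm (Fin (n j)), ∀ l, β j (σ l) + β j l = 1) →
      (∀ j j', j ≠ j' → ¬ ∃ σ : Fin (n j) ≃ Fin (n j'), ∀ l, β j' (σ l) = β j l) →
      (∀ a ℓ : ℂ, 1 < ‖a‖ → (fun j => YC (β j) (1 / a) (-ℓ)) ∈ quad β (1 / a)) ∧
      ∀ D : ℕ, ∃ c C : ℝ, 0 < c ∧ ∃ B : Set ℂ, B.Finite ∧ ∀ (C₀ : Matrix (Fin r₀) (Fin r₀) ℂ)
        (Ω : ∀ (_ : Fin k) (j : Fin s), Matrix (Fin (n j)) (Fin (n j)) ℂ) (T : ℕ), 1 ≤ T →
        ({a : Fin k → ℂ | (∀ i, a i ∈ integers m T ∧ a i ∉ B) ∧ ¬ GoodC D C₀ β Ω a}.ncard : ℝ) ≤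
          C * (T : ℝ) ^ (-c) * ((integers m T).ncard : ℝ) ^ k := by
  refine ⟨fun r n α hn hα hs => integral k r₀ r n α hn hα hs, fun s m n β hm hn hβ hs hne => ?_⟩
  have hS : Q207.HN.Sy β := Q207.HN.sy_of (fun j => (hn j).1) (fun j => (hn j).2) hβ hs hne
  refine ⟨fun a ℓ ha => ?_, fun D => ?_⟩
  · rw [quad_eq]
    have h2 : (fun j => YC (β j) (1 / a) (-ℓ)) = fun j => Q207.HN.YL (β j) (1 / a) (-ℓ) := by
      funext j
      exact YC_eq _ _ _
    rw [h2]
    exact hS.qd_in ha ℓ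
  obtain ⟨c, C, hc, B, hBf, hB⟩ := Q207.HN.sub_tor hS k m hm D r₀
  refine ⟨c, C, hc, B, hBf, fun C₀ Ω T hT => le_trans ?_ (hB C₀ Ω T hT)⟩
  refine Nat.cast_le.2 (Set.ncard_le_ncard ?_ ?_)
  · rintro a ⟨h1, h2⟩
    exact ⟨h1, fun h3 => h2 (goodC_of h3)⟩
  · refine (Set.Finite.pi (fun _ : Fin k => Pool.Agent.Y916.Sl.sint_fin m T)).subset ?_
    intro α hα i _
    exact (hα.1 i).1

end Pool.Agent.Results.MP_77d3f5_ag.SubtorsorsOfHypergeometricSums
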